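import Pool.Agent.H38.ER.Surj

open Pool.Agent.H38.ER

theorem Pool.Agent.Results.MP_e38cae_lc.Hard.result :
    QHardOn AE (fun p : ℕ × List (List (List ℕ × ℤ)) => ∀ f ∈ p.2, PolyWF p.1 f)
      fun p => Function.Surjective
        fun (x : Fin p.1 → ℝ) (j : Fin p.2.length) => pev (p.2.getD j []) x :=
  surj_hard
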